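import Mathlib
import Pool.Agent.Results.MP_76589c_co.DensityZero
import Pool.Agent.V11109.DEC.Dens

/-!
# Hadamard difference sets: orders `4 w - 1` with `w` in a sparse sequence

Let `p > 1` be a real number. There is a set `A₀` of real numbers of Hausdorff dimension smaller than
one such that for all `α > 0` outside `A₀`, with `t_j = ⌊α j ^ p⌋` (there are about `X ^ (1 / p)` terms up to
`X`), and all integers `q ≥ 1` for 100% of the `j` no finite group of order `4 w - 1`, `w = q t_j`, abelian or not,
contains a `(4 w - 1, 2 w - 1, w - 1)` difference set. In particular Golomb's conjecture on cyclic Hadamard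
difference sets holds for 100% of these `w`.
-/

set_option autoImplicit false

namespace Pool.Agent.Results.MP_76589c_co.SparseOrders

open Filter Topology

open Pool.Agent.V11109.DEC (nterm Few)
open Pool.Agent.Results.MP_76589c_co.DensityZero (HasHadamardDifferenceSet)

/-- some finite group of order `4 w - 1` contains a `(4 w - 1, 2 w - 1, w - 1)` difference set -/
def Has (w : ℕ) : Prop := 1 ≤ w ∧ HasHadamardDifferenceSet w

/-- **Main result.** For every real `p > 1` there is a set `A₀` of real numbers of Hausdorff dimension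
smaller than one such that for all `q ≥ 1` and `η > 0`, all `α > 0` outside `A₀` and all large `N` at most `η N` of
the `j ≤ N` are such that `Has w` holds for `w = q t_j`. -/
theorem result (p : ℝ) (hp : 1 < p) : ∃ A₀ : Set ℝ, dimH A₀ < 1 ∧
    ∀ q : ℕ, 1 ≤ q → ∀ η : ℝ, 0 < η → Few p A₀ η q Has := by
  obtain ⟨A₀, hA₀, hfew⟩ := Pool.Agent.V11109.DEC.few p hp (fun (_ : Unit) w => Has w)
  refine ⟨A₀, hA₀, fun q hq η hη => hfew () η hη q hq ?_⟩
  have hq0 : (0 : ℝ) < q := by exact_mod_cast hq
  have h := DensityZero.result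
  rw [Metric.tendsto_atTop] at h
  obtain ⟨X₀, hX₀⟩ := h (η / (2 * q) / 2) (by positivity)
  refine ⟨max X₀ 1, fun X hX => ?_⟩
  have h1 := hX₀ (X + 1) ((le_max_left _ _).trans (hX.trans (Nat.le_succ X)))
  have hX1 : (1 : ℝ) ≤ X := by exact_mod_cast (le_max_right X₀ 1).trans hX
  rw [Real.dist_eq, sub_zero, abs_of_nonneg (by positivity), div_lt_iff₀ (by positivity)] at h1
  have e : {n : ℕ | 1 ≤ n ∧ n ≤ X ∧ Has n} = {w : ℕ | w < X + 1 ∧ 1 ≤ w ∧ HasHadamardDifferenceSet w} := by
    ext n
    constructor
    · rintro ⟨h1, h2, h3⟩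
      exact ⟨by omega, h1, h3.2⟩
    · rintro ⟨h1, h2, h3⟩
      exact ⟨h2, by omega, h2, h3⟩
  rw [e]
  refine h1.le.trans ?_
  have h2 : (0 : ℝ) < η / (2 * q) := by positivity
  push_cast
  nlinarith

end Pool.Agent.Results.MP_76589c_co.SparseOrders
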